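import Pool.Agent.T9h72.KU.Spec

/-!
# Project KU, job PM

Author: helper63.
-/

set_option autoImplicit false

namespace Pool.Agent.T9h63.KU

open MeasureTheory Set Pool.Agent.T9h72.KU

theorem pm : S_PM := by
  intro r β c hβ hc hr h0 h1 h2 hm
  have hβ1 : β < 1 := lt_of_le_of_lt hβ hc
  have hi : IntervalIntegrable r volume β 1 :=
    (hr.mono (by rw [uIcc_of_le hβ1.le])).intervalIntegrable
  have hi2 : IntervalIntegrable (fun x => r x * (x - β)) volume β 1 := by
    refine ContinuousOn.intervalIntegrable ?_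
    rw [uIcc_of_le hβ1.le]
    exact hr.mul (continuousOn_id.sub continuousOn_const)
  have hpos : 0 < ∫ x in β..1, (c - x) * r x := by
    refine intervalIntegral.integral_pos hβ1
      ((continuousOn_const.sub continuousOn_id).mul hr) ?_ ⟨1, ⟨hβ1.le, le_rfl⟩, ?_⟩
    · intro x hx
      rcases le_total x c with hxc | hxc
      · exact mul_nonneg (sub_nonneg.2 hxc) (h0 x ⟨hx.1.le, hxc⟩)
      · exact mul_nonneg_of_nonpos_of_nonpos (sub_nonpos.2 hxc) (h1 x ⟨hxc, hx.2⟩)
    · show 0 < (c - 1) * r 1
      exact mul_pos_of_neg_of_neg (by linarith) h2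
  have heq : ∫ x in β..1, (c - x) * r x = (c - β) * ∫ x in β..1, r x := by
    have h3 : ∀ x, (c - x) * r x = (c - β) * r x - r x * (x - β) := fun x => by ring
    simp only [h3]
    rw [intervalIntegral.integral_sub (hi.const_mul _) hi2, intervalIntegral.integral_const_mul,
      hm, sub_zero]
  rw [heq] at hpos
  exact (pos_iff_pos_of_mul_pos hpos).1 (by
    rcases (sub_nonneg.2 hβ).lt_or_eq with h | h
    · exact h
    · rw [← h, zero_mul] at hpos
      exact absurd hpos (lt_irrefl 0))

end Pool.Agent.T9h63.KU
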